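import Pool.Agent.Helper72.TV.Main

/-! # Generating sets of `SL_d(K)` containing root elements have logarithmic diameter -/

namespace Pool.Agent.Helper72.Old.TransvectionDiameter

open Matrix Module

/-- `IsWord S n g`: the group element `g` is a product of at most `n` factors, each of which is an
element of `S` or the inverse of an element of `S`. -/
def IsWord {G : Type} [Group G] (S : Set G) (n : ℕ) (g : G) : Prop :=
  ∃ l : List G, l.length ≤ n ∧ (∀ x ∈ l, x ∈ S ∨ x⁻¹ ∈ S) ∧ l.prod = g

/-- `|K| ≤ |SL_d(K)|` for `d ≥ 2`. -/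
private theorem card_le {K : Type} [Field K] [Finite K] {d : ℕ} (hd : 2 ≤ d) :
    Nat.card K ≤ Nat.card (Matrix.SpecialLinearGroup (Fin d) K) := by
  have hfin : Finite (Matrix.SpecialLinearGroup (Fin d) K) :=
    Finite.of_injective (fun g => (g : Matrix (Fin d) (Fin d) K)) Subtype.val_injective
  have h01 : (⟨0, by omega⟩ : Fin d) ≠ ⟨1, by omega⟩ := by
    intro h
    rw [Fin.mk.injEq] at h
    omega
  refine Nat.card_le_card_of_injective
    (fun x : K => (⟨Matrix.transvection ⟨0, by omega⟩ ⟨1, by omega⟩ x,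
      Matrix.det_transvection_of_ne _ _ h01 x⟩ : Matrix.SpecialLinearGroup (Fin d) K)) ?_
  intro x y hxy
  have h1 : Matrix.transvection (⟨0, by omega⟩ : Fin d) ⟨1, by omega⟩ x =
      Matrix.transvection ⟨0, by omega⟩ ⟨1, by omega⟩ y := congrArg Subtype.val hxy
  have h2 := congrFun (congrFun h1 ⟨0, by omega⟩) ⟨1, by omega⟩
  simpa [Matrix.transvection, Matrix.one_apply_ne h01] using h2

/-- For every `d ≥ 2` there is `C > 0` such that, for every finite field `k` with at least five
elements, every finite extension field `K` of `k` and every generating set `S` of `SL_d(K)`: if for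
some column `v ≠ 0` and row `φ ≠ 0` with `φ v = 0` all transvections `1 + x v φ` with `x ∈ k` are words of
length at most `L` in `S`, then every element of `G = SL_d(K)` is a word of length at most
`C (L / log |k|) log |G|` in `S`. -/
theorem result (d : ℕ) (hd : 2 ≤ d) :
    ∃ C : ℝ, 0 < C ∧ ∀ (k K : Type) [Field k] [Fintype k] [Field K] [Algebra k K]
      [FiniteDimensional k K], 5 ≤ Fintype.card k →
      ∀ S : Set (Matrix.SpecialLinearGroup (Fin d) K), Subgroup.closure S = ⊤ →
      ∀ v φ : Fin d → K, v ≠ 0 → φ ≠ 0 → φ ⬝ᵥ v = 0 →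
      ∀ L : ℕ, (∀ x : k, ∃ g : Matrix.SpecialLinearGroup (Fin d) K, IsWord S L g ∧
        (g : Matrix (Fin d) (Fin d) K) = 1 + algebraMap k K x • Matrix.vecMulVec v φ) →
      ∀ g : Matrix.SpecialLinearGroup (Fin d) K, ∃ n : ℕ, IsWord S n g ∧
        (n : ℝ) ≤ C * (L / Real.log (Fintype.card k)) *
          Real.log (Nat.card (Matrix.SpecialLinearGroup (Fin d) K)) := by
  obtain ⟨C, hC, hmain⟩ := Pool.Agent.Helper72.TV.main d hd
  refine ⟨C, by exact_mod_cast hC, ?_⟩
  intro k K _ _ _ _ _ hk S hS v φ hv hφ hφv L hL g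
  have hfin : Finite K := Module.finite_of_finite k
  refine ⟨C * finrank k K * L, hmain k K hk S hS v φ hv hφ hφv L hL g, ?_⟩
  have hk1 : (1 : ℝ) < Fintype.card k := by
    have h5 : (5 : ℝ) ≤ Fintype.card k := by exact_mod_cast hk
    linarith
  have hlogk : 0 < Real.log (Fintype.card k) := Real.log_pos hk1
  have hcardK : Nat.card K = Fintype.card k ^ finrank k K := by
    rw [Module.natCard_eq_pow_finrank (K := k), Nat.card_eq_fintype_card]
  have hle : (finrank k K : ℝ) * Real.log (Fintype.card k) ≤
      Real.log (Nat.card (Matrix.SpecialLinearGroup (Fin d) K)) := by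
    have h1 := card_le (K := K) hd
    rw [hcardK] at h1
    have h2 : ((Fintype.card k : ℝ) ^ finrank k K) ≤
        (Nat.card (Matrix.SpecialLinearGroup (Fin d) K) : ℝ) := by exact_mod_cast h1
    have h3 := Real.log_le_log (by positivity) h2
    rwa [Real.log_pow] at h3
  have hn : (finrank k K : ℝ) ≤
      Real.log (Nat.card (Matrix.SpecialLinearGroup (Fin d) K)) /
        Real.log (Fintype.card k) := by
    rw [le_div_iff₀ hlogk]
    exact hle
  push_cast
  calc (C : ℝ) * (finrank k K : ℝ) * L = (C * L) * (finrank k K : ℝ) := by ring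
    _ ≤ (C * L) * (Real.log (Nat.card (Matrix.SpecialLinearGroup (Fin d) K)) /
        Real.log (Fintype.card k)) := mul_le_mul_of_nonneg_left hn (by positivity)
    _ = C * (L / Real.log (Fintype.card k)) *
          Real.log (Nat.card (Matrix.SpecialLinearGroup (Fin d) K)) := by ring

end Pool.Agent.Helper72.Old.TransvectionDiameter
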